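import Pool.Agent.H61.SC.Stmts
import Pool.Agent.H61.SC.Ex

/-!
# SC, row HB: Herbst
-/

set_option autoImplicit false

namespace Pool.SC

open Finset

private theorem hasDeriv_ex {α : Type} [DecidableEq α] (p : ℝ) (F : Finset α)
    (f : Finset α → ℝ) (t : ℝ) :
    HasDerivAt (fun t : ℝ => ex p F (fun s => Real.exp (-(t * f s))))
      (ex p F (fun s => -(f s) * Real.exp (-(t * f s)))) t := by
  unfold ex
  refine HasDerivAt.fun_sum fun s _ => ?_
  have h1 : HasDerivAt (fun t : ℝ => -(t * f s)) (-(f s)) t := by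
    exact (hasDerivAt_mul_const (f s)).fun_neg
  have h2 := (h1.exp).const_mul (p ^ s.card * (1 - p) ^ (F.card - s.card))
  refine h2.congr_deriv ?_
  ring

/-- energy of the exponential -/
private theorem energy {α : Type} [DecidableEq α] {p : ℝ} (hp0 : 0 < p) (hp1 : p < 1)
    (F : Finset α) (f : Finset α → ℝ) (K : ℝ)
    (hmon : ∀ s ⊆ F, ∀ e ∈ F, 0 ≤ gr e f s) (hK : ∀ s ⊆ F, ∑ e ∈ F \ s, gr e f s ^ 2 ≤ K)
    (t : ℝ) (ht : 0 ≤ t) :
    ∑ e ∈ F, ex p F (fun s => gr e (fun s => Real.exp (-(t * f s) / 2)) s ^ 2) ≤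
      t ^ 2 * K / (4 * (1 - p)) * ex p F (fun s => Real.exp (-(t * f s))) := by
  have h1p : 0 < 1 - p := by linarith
  have hstep : ∀ e ∈ F, ∀ s ⊆ F, gr e (fun s => Real.exp (-(t * f s) / 2)) s ^ 2 ≤
      t ^ 2 / 4 * (gr e f s ^ 2 * Real.exp (-(t * f (s.erase e)))) := by
    intro e he s hs
    have h0 := hmon s hs e he
    have hgr : gr e (fun s => Real.exp (-(t * f s) / 2)) s =
        -(Real.exp (-(t * f (s.erase e)) / 2) * (1 - Real.exp (-(t * gr e f s / 2)))) := by
      simp only [gr]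
      rw [mul_sub, mul_one, ← Real.exp_add, neg_sub]
      congr 2
      ring
    have h2 : 0 ≤ 1 - Real.exp (-(t * gr e f s / 2)) := by
      have : Real.exp (-(t * gr e f s / 2)) ≤ 1 := by
        rw [Real.exp_le_one_iff]
        have : 0 ≤ t * gr e f s / 2 := by positivity
        linarith
      linarith
    have h3 : 1 - Real.exp (-(t * gr e f s / 2)) ≤ t * gr e f s / 2 := by
      have := Real.add_one_le_exp (-(t * gr e f s / 2))
      linarith
    have h4 : (1 - Real.exp (-(t * gr e f s / 2))) ^ 2 ≤ (t * gr e f s / 2) ^ 2 :=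
      pow_le_pow_left₀ h2 h3 2
    have h5 : Real.exp (-(t * f (s.erase e)) / 2) ^ 2 = Real.exp (-(t * f (s.erase e))) := by
      rw [← Real.exp_nat_mul]
      congr 1
      push_cast
      ring
    rw [hgr, neg_sq, mul_pow, h5]
    calc Real.exp (-(t * f (s.erase e))) * (1 - Real.exp (-(t * gr e f s / 2))) ^ 2
        ≤ Real.exp (-(t * f (s.erase e))) * (t * gr e f s / 2) ^ 2 :=
          mul_le_mul_of_nonneg_left h4 (Real.exp_pos _).le
      _ = _ := by ring
  have h6 : ∀ e ∈ F, ex p F (fun s => gr e f s ^ 2 * Real.exp (-(t * f (s.erase e)))) =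
      (1 - p)⁻¹ * ex p F (fun s => if e ∈ s then 0 else
        gr e f s ^ 2 * Real.exp (-(t * f s))) := by
    intro e he
    rw [ex_erase he p (fun s => gr e f s ^ 2 * Real.exp (-(t * f s))), ← mul_assoc,
      inv_mul_cancel₀ h1p.ne', one_mul]
    refine ex_congr fun s _ => ?_
    rw [gr_erase]
  calc ∑ e ∈ F, ex p F (fun s => gr e (fun s => Real.exp (-(t * f s) / 2)) s ^ 2)
      ≤ ∑ e ∈ F, t ^ 2 / 4 * ((1 - p)⁻¹ * ex p F (fun s => if e ∈ s then 0 else
        gr e f s ^ 2 * Real.exp (-(t * f s)))) := by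
        refine Finset.sum_le_sum fun e he => ?_
        rw [← h6 e he, ← ex_mul_left]
        exact ex_mono hp0.le hp1.le fun s hs => hstep e he s hs
    _ = t ^ 2 / 4 * (1 - p)⁻¹ * ex p F (fun s => (∑ e ∈ F \ s, gr e f s ^ 2) *
          Real.exp (-(t * f s))) := by
        rw [← Finset.mul_sum, ← Finset.mul_sum, ← ex_finsum, mul_assoc]
        congr 2
        refine ex_congr fun s _ => ?_
        rw [Finset.sum_mul, Finset.sdiff_eq_filter, Finset.sum_filter]
        refine Finset.sum_congr rfl fun e _ => ?_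
        by_cases h : e ∈ s <;> simp [h]
    _ ≤ t ^ 2 / 4 * (1 - p)⁻¹ * ex p F (fun s => K * Real.exp (-(t * f s))) := by
        refine mul_le_mul_of_nonneg_left (ex_mono hp0.le hp1.le fun s hs =>
          mul_le_mul_of_nonneg_right (hK s hs) (Real.exp_pos _).le) (by positivity)
    _ = _ := by
        rw [ex_mul_left]
        field_simp

theorem hb_thm (hLS : S_LS) : S_HB := by
  intro α _ p hp0 hp1 F f K hmon hK t ht
  have h1p : 0 < 1 - p := by linarith
  set G : ℝ → ℝ := fun t => ex p F (fun s => Real.exp (-(t * f s))) with hG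
  set G' : ℝ → ℝ := fun t => ex p F (fun s => -(f s) * Real.exp (-(t * f s))) with hG'
  have hder : ∀ u, HasDerivAt G (G' u) u := fun u => hasDeriv_ex p F f u
  have hpos : ∀ u, 0 < G u := by
    intro u
    obtain ⟨c, hc0, hc⟩ : ∃ c : ℝ, 0 < c ∧ ∀ s ⊆ F, c ≤ Real.exp (-(u * f s)) := by
      refine ⟨Real.exp (-(∑ s ∈ F.powerset, |u * f s|)), Real.exp_pos _, fun s hs => ?_⟩
      rw [Real.exp_le_exp]
      have h1 : |u * f s| ≤ ∑ s ∈ F.powerset, |u * f s| :=
        Finset.single_le_sum (f := fun s => |u * f s|) (fun _ _ => abs_nonneg _)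
          (Finset.mem_powerset.2 hs)
      have h2 := le_abs_self (u * f s)
      linarith
    exact lt_of_lt_of_le hc0 (const_le_ex hp0.le hp1.le hc)
  have hG0 : G 0 = 1 := by
    simp only [hG, zero_mul, neg_zero, Real.exp_zero]
    exact ex_const _ _ _
  have hG'0 : G' 0 = -(ex p F f) := by
    simp only [hG', zero_mul, neg_zero, Real.exp_zero, mul_one]
    exact ex_neg _ _ _
  set ψ : ℝ → ℝ := fun u => Real.log (G u) with hψ
  have hψd : ∀ u, HasDerivAt ψ (G' u / G u) u := fun u => (hder u).log (hpos u).ne'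
  have hψ0 : ψ 0 = 0 := by simp only [hψ, hG0, Real.log_one]
  set K' : ℝ := K / (2 * (1 - p)) with hK'
  -- the differential inequality
  have hdi : ∀ u, 0 ≤ u → u * (G' u / G u) - ψ u ≤ K' * u ^ 2 := by
    intro u hu
    have h1 := hLS α p hp0 hp1 F (fun s => Real.exp (-(u * f s) / 2))
    have h2 := energy hp0 hp1 F f K hmon hK u hu
    have h3 : ∀ s : Finset α, Real.exp (-(u * f s) / 2) ^ 2 = Real.exp (-(u * f s)) := by
      intro s
      rw [← Real.exp_nat_mul]
      congr 1
      push_cast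
      ring
    simp only [h3, Real.log_exp] at h1
    have h4 : ex p F (fun s => Real.exp (-(u * f s)) * -(u * f s)) = u * G' u := by
      rw [hG']
      simp only
      rw [← ex_mul_left]
      exact ex_congr fun s _ => by ring
    rw [h4] at h1
    have h5 : u * G' u - G u * ψ u ≤ 2 * (u ^ 2 * K / (4 * (1 - p)) * G u) :=
      h1.trans (mul_le_mul_of_nonneg_left h2 (by norm_num))
    have h6 : u * (G' u / G u) - ψ u = (u * G' u - G u * ψ u) / G u := by
      have := (hpos u).ne'
      field_simp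
    rw [h6, div_le_iff₀ (hpos u)]
    refine h5.trans (le_of_eq ?_)
    rw [hK']
    field_simp
    ring
  rcases eq_or_lt_of_le ht with rfl | ht'
  · have : ex p F (fun s => Real.exp (-(0 * f s))) = 1 := hG0
    rw [this]
    simp
  -- the function `ψ u / u - K' u`
  set w : ℝ → ℝ := fun u => dslope ψ 0 u - K' * u with hw
  have hwc : ContinuousOn w (Set.Icc 0 t) := by
    have h1 : Continuous (dslope ψ 0) := by
      rw [continuous_iff_continuousAt]
      intro u
      by_cases hu : u = 0
      · rw [hu]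
        exact continuousAt_dslope_same.2 (hψd 0).differentiableAt
      · exact (continuousAt_dslope_of_ne hu).2 (hψd u).continuousAt
    exact (h1.sub (continuous_const.mul continuous_id)).continuousOn
  have hwd : ∀ u ∈ Set.Ioo 0 t, HasDerivAt w ((u * (G' u / G u) - ψ u) / u ^ 2 - K') u := by
    intro u hu
    have hu0 : u ≠ 0 := hu.1.ne'
    have h1 : HasDerivAt (fun u => ψ u / u) ((G' u / G u * u - ψ u * 1) / u ^ 2) u :=
      (hψd u).div (hasDerivAt_id u) hu0
    have h2 : (fun u => ψ u / u) =ᶠ[nhds u] dslope ψ 0 := by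
      filter_upwards [isOpen_ne.mem_nhds hu0] with v hv
      rw [dslope_of_ne _ hv, slope_def_field, hψ0, sub_zero, sub_zero]
    have h3 : HasDerivAt (dslope ψ 0) ((G' u / G u * u - ψ u * 1) / u ^ 2) u :=
      h1.congr_of_eventuallyEq h2.symm
    have h4 := h3.sub ((hasDerivAt_id u).const_mul K')
    refine h4.congr_deriv ?_
    ring
  have hanti : AntitoneOn w (Set.Icc 0 t) := by
    refine antitoneOn_of_deriv_nonpos (convex_Icc 0 t) hwc ?_ ?_
    · rw [interior_Icc]
      exact fun u hu => (hwd u hu).differentiableAt.differentiableWithinAt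
    · rw [interior_Icc]
      intro u hu
      rw [(hwd u hu).deriv]
      have h1 := hdi u hu.1.le
      have h2 : 0 < u ^ 2 := pow_pos hu.1 2
      have h3 : (u * (G' u / G u) - ψ u) / u ^ 2 ≤ K' := by
        rw [div_le_iff₀ h2]
        exact h1
      linarith
  have h7 := hanti (Set.left_mem_Icc.2 ht) (Set.right_mem_Icc.2 ht) ht
  have h8 : w 0 = -(ex p F f) := by
    simp only [hw, dslope_same, mul_zero, sub_zero]
    rw [(hψd 0).deriv, hG0, hG'0, div_one]
  have h9 : w t = ψ t / t - K' * t := by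
    simp only [hw]
    rw [dslope_of_ne _ ht'.ne', slope_def_field, hψ0, sub_zero, sub_zero]
  rw [h8, h9] at h7
  have h10 : ψ t ≤ -(t * ex p F f) + t ^ 2 * K / (2 * (1 - p)) := by
    have h11 : ψ t / t ≤ -(ex p F f) + K' * t := by linarith
    rw [div_le_iff₀ ht'] at h11
    refine h11.trans (le_of_eq ?_)
    rw [hK']
    ring
  have h12 : ex p F (fun s => Real.exp (-(t * f s))) = Real.exp (ψ t) := by
    rw [hψ]
    exact (Real.exp_log (hpos t)).symm
  rw [h12]
  exact Real.exp_le_exp.2 h10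

end Pool.SC
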