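import Pool.Agent.H61.SC.Stmts
import Pool.Agent.H61.SC.Ex

/-!
# SC, row MN: expected minimum of a finite family
-/

set_option autoImplicit false

namespace Pool.SC

open Finset

theorem mn_thm (hHB : S_HB) : S_MN := by
  intro α _ p hp0 hp1 F ι J Y f m K Q hK hQ hJ hY hf
  have h1p : 0 < 1 - p := by linarith
  set K' : ℝ := K / (2 * (1 - p)) with hK'
  have hK'0 : 0 < K' := by positivity
  set t : ℝ := Real.sqrt (Q / K') with ht
  have ht0 : 0 < t := Real.sqrt_pos.2 (by positivity)
  have htsq : t ^ 2 = Q / K' := Real.sq_sqrt (by positivity)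
  -- Jensen
  have hjen : Real.exp (-(t * ex p F f)) ≤ ex p F (fun s => Real.exp (-(t * f s))) := by
    -- tangent line at the mean
    have h1 : ∀ s ⊆ F, Real.exp (-(t * ex p F f)) * (1 + (t * ex p F f - t * f s)) ≤
        Real.exp (-(t * f s)) := by
      intro s _
      have h2 := Real.add_one_le_exp (t * ex p F f - t * f s)
      calc Real.exp (-(t * ex p F f)) * (1 + (t * ex p F f - t * f s))
          ≤ Real.exp (-(t * ex p F f)) * Real.exp (t * ex p F f - t * f s) := by
            refine mul_le_mul_of_nonneg_left ?_ (Real.exp_pos _).le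
            linarith
        _ = _ := by
            rw [← Real.exp_add]
            congr 1
            ring
    have h3 := ex_mono (F := F) hp0.le hp1.le h1
    rw [ex_mul_left, ex_add, ex_const, ex_sub, ex_const, ex_mul_left] at h3
    simpa using h3
  have hsum : ∀ s ⊆ F, Real.exp (-(t * f s)) ≤ ∑ j ∈ J, Real.exp (-(t * Y j s)) := by
    intro s hs
    obtain ⟨j, hj, hjs⟩ := hf s hs
    refine le_trans ?_ (Finset.single_le_sum (f := fun j => Real.exp (-(t * Y j s)))
      (fun _ _ => (Real.exp_pos _).le) hj)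
    rw [Real.exp_le_exp]
    have := mul_le_mul_of_nonneg_left hjs ht0.le
    linarith
  have hbound : Real.exp (-(t * ex p F f)) ≤ (J.card : ℝ) * Real.exp (-(t * m) + t ^ 2 * K') := by
    refine hjen.trans ((ex_mono hp0.le hp1.le hsum).trans ?_)
    rw [ex_finsum]
    calc ∑ j ∈ J, ex p F (fun s => Real.exp (-(t * Y j s)))
        ≤ ∑ j ∈ J, Real.exp (-(t * m) + t ^ 2 * K') := by
          refine Finset.sum_le_sum fun j hj => ?_
          obtain ⟨hm1, hm2, hm3⟩ := hY j hj
          refine (hHB α p hp0 hp1 F (Y j) K hm1 hm2 t ht0.le).trans ?_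
          rw [Real.exp_le_exp, hK']
          have h4 := mul_le_mul_of_nonneg_left hm3 ht0.le
          have h5 : t ^ 2 * K / (2 * (1 - p)) = t ^ 2 * (K / (2 * (1 - p))) := by ring
          rw [h5]
          linarith
      _ = _ := by rw [Finset.sum_const, nsmul_eq_mul]
  have hJpos : 0 < (J.card : ℝ) := by
    by_contra h
    have h0 : (J.card : ℝ) = 0 := le_antisymm (not_lt.1 h) (Nat.cast_nonneg _)
    rw [h0, zero_mul] at hbound
    exact absurd hbound (not_le.2 (Real.exp_pos _))
  have hlog : -(t * ex p F f) ≤ Q + (-(t * m) + t ^ 2 * K') := by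
    have h6 := Real.log_le_log (Real.exp_pos _) hbound
    rw [Real.log_exp, Real.log_mul hJpos.ne' (Real.exp_pos _).ne', Real.log_exp] at h6
    linarith
  have h7 : t ^ 2 * K' = Q := by
    rw [htsq]
    field_simp
  have h8 : t * m - 2 * Q ≤ t * ex p F f := by
    rw [h7] at hlog
    linarith
  -- `Q = t * sqrt (K' Q)`
  have h9 : Q = t * Real.sqrt (K' * Q) := by
    rw [ht, ← Real.sqrt_mul (by positivity)]
    have : Q / K' * (K' * Q) = Q ^ 2 := by
      field_simp
    rw [this, Real.sqrt_sq hQ.le]
  have h10 : Real.sqrt (K * Q / (2 * (1 - p))) = Real.sqrt (K' * Q) := by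
    congr 1
    rw [hK']
    ring
  rw [h10]
  have h11 : t * (m - 2 * Real.sqrt (K' * Q)) ≤ t * ex p F f := by
    have : t * (m - 2 * Real.sqrt (K' * Q)) = t * m - 2 * (t * Real.sqrt (K' * Q)) := by ring
    rw [this, ← h9]
    exact h8
  exact le_of_mul_le_mul_left h11 ht0

end Pool.SC
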